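import Pool.Agent.Lib.MP_485030_co.Geometry
import Pool.Agent.Lib.MP_485030_co.Seven

/-!
MP_485030_co: a simplex `S ⊆ [0,1]^n ⊆ n S` exists exactly in the dimensions `n ≥ 1` other than
`2`, `4`, `6`.
-/

namespace Pool.Agent.Results.MP_485030_co.Classification

open Pool.Agent.Lib.MP_485030_co

theorem result (n : ℕ) (hn : 1 ≤ n) :
    (∃ S : Affine.Simplex ℝ (Fin n → ℝ) n,
      convexHull ℝ (Set.range S.points) ⊆ Set.Icc 0 1 ∧
      Set.Icc 0 1 ⊆ AffineMap.homothety (Finset.univ.centroid ℝ S.points) (n : ℝ) ''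
        convexHull ℝ (Set.range S.points)) ↔ n ≠ 2 ∧ n ≠ 4 ∧ n ≠ 6 := by
  constructor
  · rintro ⟨S, h1, h2⟩
    obtain ⟨V, W, h⟩ := isSys_of_good S h1 h2
    refine ⟨?_, ?_, ?_⟩ <;> rintro rfl
    · exact not_isSys (by norm_num) none3 V W h
    · exact not_isSys (by norm_num) none5 V W h
    · exact not_isSys (by norm_num) none7 V W h
  · rintro ⟨h2, h4, h6⟩
    exact good_of_ne hn h2 h4 h6

end Pool.Agent.Results.MP_485030_co.Classification
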