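import Pool.Agent.Lib.MP_485030_co.PerfC

/-!
MP_485030_co: a perfect simplex (`S ⊆ [0,1]^n ⊆ ξ_n S` with every vertex of the cube on the
boundary of `ξ_n S`) exists exactly in the odd dimensions.
-/

namespace Pool.Agent.Results.MP_485030_co.Perfect

theorem result (n : ℕ) (hn : 1 ≤ n) :
    (∃ (S : Affine.Simplex ℝ (Fin n → ℝ) n) (ξ : ℝ),
      IsLeast {τ : ℝ | 1 ≤ τ ∧ ∃ T : Affine.Simplex ℝ (Fin n → ℝ) n,
        convexHull ℝ (Set.range T.points) ⊆ Set.Icc 0 1 ∧
        Set.Icc 0 1 ⊆ AffineMap.homothety (Finset.univ.centroid ℝ T.points) τ ''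
          convexHull ℝ (Set.range T.points)} ξ ∧
      convexHull ℝ (Set.range S.points) ⊆ Set.Icc 0 1 ∧
      Set.Icc 0 1 ⊆ AffineMap.homothety (Finset.univ.centroid ℝ S.points) ξ ''
        convexHull ℝ (Set.range S.points) ∧
      ∀ y : Fin n → ℝ, (∀ i, y i = 0 ∨ y i = 1) →
        y ∈ frontier (AffineMap.homothety (Finset.univ.centroid ℝ S.points) ξ ''
          convexHull ℝ (Set.range S.points))) ↔ Odd n :=
  Pool.Agent.Lib.MP_485030_co.perfect_iff hn

end Pool.Agent.Results.MP_485030_co.Perfect
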